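import Pool.Agent.Y223.G.WModP
import Pool.Agent.Y223.G.AllP

/-!
MP_4d1008_ag: resolution, in every dimension, of products of elliptic curves over number fields,
with wild ramification.

The elliptic curves `W ω` over the number field `E` have good reduction everywhere over the Galois
extension `M` of `E`. The field `F` is the function field of their product over `E`, with the
generic points `(X ω, Y ω)` of the factors, and `K` is the function field of their product over
`M`, with the action `ρ` of the Galois group. The curves have bad reduction, in general, at the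
primes at which `M` is ramified over `E`, and the ramification may be wild.
-/

set_option autoImplicit false

open AlgebraicGeometry CategoryTheory CategoryTheory.Limits MvPolynomial

open scoped NumberField

namespace Pool.Agent.Results.MP_4d1008_ag.EllipticCurveProducts

/-- The inertia group of the ideal `𝔓` of the ring of integers of `M`: the automorphisms of `M` over
`E` which act trivially modulo `𝔓`. -/
def inertiaGroup (E : Type) {M : Type} [Field E] [Field M] [Algebra E M] (𝔓 : Ideal (𝓞 M)) :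
    Set (M ≃ₐ[E] M) :=
  {g | ∀ o : 𝓞 M, ∃ e ∈ 𝔓, (e : M) = g o - o}

/-- The order of the inertia group of the maximal ideal `𝔓` (the ramification index of `𝔓` over `E`)
is divisible by `r ^ i`, where `r` is the residue characteristic. -/
def ResCharPowDvd (E : Type) {M : Type} [Field E] [Field M] [Algebra E M] (𝔓 : Ideal (𝓞 M))
    (i : ℕ) : Prop :=
  ∃ r : ℕ, r.Prime ∧ (r : 𝓞 M) ∈ 𝔓 ∧ r ^ i ∣ Nat.card (inertiaGroup E 𝔓)

/-- At the primes `𝔓` over `2`, if an automorphism `g ≠ 1` of `M` over `E` is the identity modulo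
`𝔓 ^ (l + 1)`, then the valuation of `a₁` is at least `2 l / 3`. This is no condition at the primes
which are tamely ramified over `E`; at the others it says that the reduction is supersingular and
that `a₁` is divisible by a sufficiently high power of `𝔓`, for instance by `2`. -/
def IsSupersingularAtWildPrimes (E : Type) {M : Type} [Field E] [Field M] [Algebra E M]
    (V : WeierstrassCurve (𝓞 M)) : Prop :=
  ∀ 𝔓 : Ideal (𝓞 M), 𝔓.IsMaximal → (2 : 𝓞 M) ∈ 𝔓 → ∀ g : M ≃ₐ[E] M, g ≠ 1 → ∀ l : ℕ, 1 ≤ l →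
    (∀ o : 𝓞 M, ∃ e ∈ 𝔓 ^ (l + 1), (e : M) = g o - o) → V.a₁ ^ 3 ∈ 𝔓 ^ (2 * l)

/-- After a change of variables over `M`, the Weierstrass equation `W` over `E` has coefficients in
the ring of integers of `M` and its discriminant is a unit: the elliptic curve has good reduction
everywhere over `M`. The reduction is supersingular at the wildly ramified primes over `2`. -/
def HasGoodReduction {E : Type} (M : Type) [Field E] [Field M] [Algebra E M]
    (W : WeierstrassCurve E) : Prop :=
  ∃ (V : WeierstrassCurve (𝓞 M)) (C : WeierstrassCurve.VariableChange M),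
    IsUnit V.Δ ∧ V.map (algebraMap (𝓞 M) M) = C • W.map (algebraMap E M) ∧
      IsSupersingularAtWildPrimes E V

/-- `(X, Y)` is a generic point of the curve `W`. -/
def IsGenericPoint {E F : Type} [Field E] [Field F] [Algebra E F] (W : WeierstrassCurve E)
    (X Y : F) : Prop :=
  Transcendental E X ∧ Y ^ 2 + algebraMap E F W.a₁ * X * Y + algebraMap E F W.a₃ * Y =
    X ^ 3 + algebraMap E F W.a₂ * X ^ 2 + algebraMap E F W.a₄ * X + algebraMap E F W.a₆

/-- The homogeneous coordinates `X ω`, `Y ω`, `1` of the points `(X ω, Y ω)`. -/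
def coordinates (K : Type) {F Ω : Type} [Field F] [Field K] [Algebra F K] (X Y : Ω → F) (ω : Ω) :
    Fin (2 + 1) → K :=
  ![algebraMap F K (X ω), algebraMap F K (Y ω), 1]

/-- The field over `M` generated by the function fields of the curves with the homogeneous
coordinates `z ω`, `ω` in `S`. -/
noncomputable def productField (M : Type) {K Ω : Type} [Field M] [Field K] [Algebra M K] {m : ℕ}
    (z : Ω → Fin (m + 1) → K) (S : Set Ω) : IntermediateField M K :=
  IntermediateField.adjoin M {y | ∃ ω ∈ S, ∃ j, y = z ω j / z ω 0}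

/-- `K` is the function field of the product over `M` of the curves with the homogeneous
coordinates `z ω`. -/
def IsProduct (M : Type) {K Ω : Type} [Field M] [Field K] [Algebra M K] {m : ℕ}
    (z : Ω → Fin (m + 1) → K) : Prop :=
  productField M z Set.univ = ⊤ ∧ ∀ (S : Set Ω) (ω : Ω), ω ∉ S →
    (productField M z S).toSubalgebra.LinearDisjoint (productField M z {ω}).toSubalgebra

theorem result :
    ∀ (E M : Type) [Field E] [NumberField E] [Field M] [NumberField M] [Algebra E M]
      [IsGalois E M],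
      -- the wild inertia groups have order at most the residue characteristic
      (∀ 𝔓 : Ideal (𝓞 M), 𝔓.IsMaximal → ¬ ResCharPowDvd E 𝔓 2) →
      -- the elliptic curves
      ∀ (Ω : Type) [Fintype Ω] [Nonempty Ω] (W : Ω → WeierstrassCurve E),
      (∀ ω, HasGoodReduction M (W ω)) →
      -- the function fields of the product over `E` and over `M`
      ∀ (F K : Type) [Field F] [Field K] [Algebra E F] [Algebra M K] [Algebra E K]
      [IsScalarTower E M K] [Algebra F K] [IsScalarTower E F K]
      (ρ : (M ≃ₐ[E] M) →* (K ≃ₐ[E] K)), (∀ g c, ρ g (algebraMap M K c) = algebraMap M K (g c)) →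
      (∀ y, (∀ g, ρ g y = y) ↔ ∃ f : F, algebraMap F K f = y) →
      ∀ X Y : Ω → F, (∀ ω, IsGenericPoint (W ω) (X ω) (Y ω)) → IsProduct M (coordinates K X Y) →
      -- every integral scheme of finite type over the integers with the function field `F`
      ∀ (Y : Scheme.{0}) (_ : IsIntegral Y) (s : Y ⟶ Spec (CommRingCat.of ℤ)),
      LocallyOfFiniteType s → QuasiCompact s → Nonempty (Y.functionField ≃+* F) →
      ∃ (X' : Scheme.{0}) (_ : IsIntegral X') (g : X' ⟶ Spec (CommRingCat.of ℤ)),
        IsProper g ∧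
        (∀ x : X',
          (((Module.finrank (IsLocalRing.ResidueField (X'.presheaf.stalk x))
              (IsLocalRing.CotangentSpace (X'.presheaf.stalk x)) : ℕ∞)) : WithBot ℕ∞)
            = ringKrullDim (X'.presheaf.stalk x)) ∧
        Nonempty (X'.functionField ≃+* Y.functionField) := by
  intro E M _ _ _ _ _ _ hin Ω _ _ W hW F K _ _ _ _ _ _ _ _ ρ hρ hfix X Y hP ⟨hgen, hld⟩ Y'
    _ s _ _ ⟨i⟩
  have hcard : ∀ 𝔓 : Ideal (𝓞 M), Nat.card (Pool.Agent.Y223.G.inert E 𝔓) =
      Nat.card (inertiaGroup E 𝔓) := by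
    intro 𝔓
    have h1 : ((Pool.Agent.Y223.G.inert E 𝔓 : Subgroup (M ≃ₐ[E] M)) : Set (M ≃ₐ[E] M)) =
        inertiaGroup E 𝔓 := by
      ext g
      constructor
      · intro hg o
        exact ⟨_, hg o, rfl⟩
      · intro hg o
        obtain ⟨e, he, h⟩ := hg o
        have h2 : e = Pool.Agent.Y223.G.TT E M g o - o := by
          apply NumberField.RingOfIntegers.coe_injective
          exact h
        rw [← h2]
        exact he
    exact congrArg (fun S : Set (M ≃ₐ[E] M) => Nat.card S) h1
  have hW' : ∀ ω, ∃ (V : WeierstrassCurve (𝓞 M)) (C : WeierstrassCurve.VariableChange M),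
      IsUnit V.Δ ∧ V.map (algebraMap (𝓞 M) M) = C • (W ω).map (algebraMap E M) ∧
      ∀ 𝔮 : Ideal (𝓞 M), 𝔮.IsPrime → (2 : 𝓞 M) ∈ 𝔮 → ∀ g : M ≃ₐ[E] M, g ≠ 1 → ∀ l, 1 ≤ l →
        (∀ x, Pool.Agent.Y223.G.TT E M g x - x ∈ 𝔮 ^ (l + 1)) → V.a₁ ^ 3 ∈ 𝔮 ^ (2 * l) := by
    intro ω
    obtain ⟨V, C, h1, h2, h3⟩ := hW ω
    refine ⟨V, C, h1, h2, fun 𝔮 h𝔮 h2𝔮 g hg l hl hgl => ?_⟩
    have h0 : 𝔮 ≠ ⊥ := by
      rintro rfl
      rw [Ideal.mem_bot] at h2𝔮
      exact two_ne_zero h2𝔮
    exact h3 𝔮 (h𝔮.isMaximal h0) h2𝔮 g hg l hl (fun o => ⟨_, hgl o, rfl⟩)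
  have hD : Pool.Agent.Y223.G.EllD3 E M F K Ω ρ (fun ω => algebraMap F K (X ω))
      (fun ω => algebraMap F K (Y ω)) :=
    Pool.Agent.Y223.G.ellD3_of Pool.Agent.Y223.G.all_TAMC Pool.Agent.Y223.G.all_SMRG
      Pool.Agent.Y223.G.all_LDG Pool.Agent.Y223.G.all_ECSM Pool.Agent.Y223.G.all_ECINT ρ hρ hfix
      (fun 𝔓 h𝔓 p hp hp𝔓 hd => hin 𝔓 h𝔓 ⟨p, hp, hp𝔓, by rwa [← hcard]⟩)
      W hW' X Y (fun ω => ⟨(hP ω).1, (hP ω).2⟩) hgen hld
  exact Pool.Agent.Y223.G.ell_model3_F Pool.Agent.Y223.G.all_LINW
    Pool.Agent.Y223.G.all_ECCH3 hD i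

end Pool.Agent.Results.MP_4d1008_ag.EllipticCurveProducts
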