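import Pool.Agent.Y223.G.WModE
import Pool.Agent.Y223.G.RgSm
import Pool.Agent.Y223.G.AllE

/-!
MP_4d1008_ag: resolution, in every dimension, of Weil restrictions along finite étale algebras over
number fields, with wild ramification.

The Galois extension `M` of the number field `E` splits a finite étale algebra over `E`, which
corresponds to the finite set `Ω` with an action of the Galois group. The variety over this algebra
is given by its conjugates over `M`, which are permuted by the Galois group: `z ω` are homogeneous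
coordinates of the conjugate `ω`, in the function field `K` of the product of the conjugates. The
Weil restriction `V` is the variety over `E`, with the function field `F`, the field of
invariants of `K`, and homogeneous coordinates `x` in `F`, which over `M` becomes the
product of the conjugates.
-/

set_option autoImplicit false

open AlgebraicGeometry CategoryTheory CategoryTheory.Limits MvPolynomial

open scoped NumberField

namespace Pool.Agent.Results.MP_4d1008_ag.EtaleWeilRestrictions

/-- The inertia group of the ideal `𝔓` of the ring of integers of `M`: the automorphisms of `M` over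
`E` which act trivially modulo `𝔓`. -/
def inertiaGroup (E : Type) {M : Type} [Field E] [Field M] [Algebra E M] (𝔓 : Ideal (𝓞 M)) :
    Set (M ≃ₐ[E] M) :=
  {g | ∀ o : 𝓞 M, ∃ e ∈ 𝔓, (e : M) = g o - o}

/-- The order of the inertia group of the maximal ideal `𝔓` (the ramification index of `𝔓` over `E`)
is divisible by `r ^ i`, where `r` is the residue characteristic. -/
def ResCharPowDvd (E : Type) {M : Type} [Field E] [Field M] [Algebra E M] (𝔓 : Ideal (𝓞 M))
    (i : ℕ) : Prop :=
  ∃ r : ℕ, r.Prime ∧ (r : 𝓞 M) ∈ 𝔓 ∧ r ^ i ∣ Nat.card (inertiaGroup E 𝔓)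

/-- The ring `O[z 0 / z j, ..., z m / z j]` of the chart `z j ≠ 0` of the model over `O` of the
variety with the homogeneous coordinates `z`. -/
def chartRing (O : Type) {K : Type} [CommRing O] [Field K] [Algebra O K] {m : ℕ}
    (z : Fin (m + 1) → K) (j : Fin (m + 1)) : Subalgebra O K :=
  Algebra.adjoin O (Set.range fun l => z l / z j)

/-- The algebra generated by the rings of the charts `z ω (J ω) ≠ 0`: a chart of the product over
`O` of the models. -/
def productRing (O : Type) {K Ω : Type} [CommRing O] [Field K] [Algebra O K] {m : ℕ}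
    (z : Ω → Fin (m + 1) → K) (J : Ω → Fin (m + 1)) : Subalgebra O K :=
  Algebra.adjoin O {y | ∃ (ω : Ω) (l : Fin (m + 1)), y = z ω l / z ω (J ω)}

/-- The field over `M` generated by the function fields of the varieties with the homogeneous
coordinates `z ω`, `ω` in `S`. -/
noncomputable def productField (M : Type) {K Ω : Type} [Field M] [Field K] [Algebra M K] {m : ℕ}
    (z : Ω → Fin (m + 1) → K) (S : Set Ω) : IntermediateField M K :=
  IntermediateField.adjoin M {y | ∃ ω ∈ S, ∃ j, y = z ω j / z ω 0}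

/-- `K` is the function field of the product over `M` of the varieties with the homogeneous
coordinates `z ω`. -/
def IsProduct (M : Type) {K Ω : Type} [Field M] [Field K] [Algebra M K] {m : ℕ}
    (z : Ω → Fin (m + 1) → K) : Prop :=
  (∀ ω j, z ω j ≠ 0) ∧ productField M z Set.univ = ⊤ ∧ ∀ (S : Set Ω) (ω : Ω), ω ∉ S →
    (productField M z S).toSubalgebra.LinearDisjoint (productField M z {ω}).toSubalgebra

/-- The models over the ring of integers of `M` of the varieties with the homogeneous coordinates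
`z ω` are smooth, or they are smooth at the points over the primes which are wildly ramified over
`E` and their product is regular. -/
def IsAdmissible (E M : Type) {K Ω : Type} [Field E] [Field M] [Algebra E M] [Field K]
    [Algebra M K] {m : ℕ} (z : Ω → Fin (m + 1) → K) : Prop :=
  (∀ ω j (𝔮 : Ideal (chartRing (𝓞 M) (z ω) j)) [𝔮.IsPrime], Algebra.IsSmoothAt (𝓞 M) 𝔮) ∨
  (∀ 𝔓 : Ideal (𝓞 M), 𝔓.IsMaximal → ResCharPowDvd E 𝔓 1 →
    ∀ ω j (𝔮 : Ideal (chartRing (𝓞 M) (z ω) j)) [𝔮.IsPrime],
      𝔮.comap (algebraMap (𝓞 M) (chartRing (𝓞 M) (z ω) j)) = 𝔓 → Algebra.IsSmoothAt (𝓞 M) 𝔮) ∧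
  ∀ J : Ω → Fin (m + 1), IsRegularRing (productRing (𝓞 M) z J)

theorem result :
    ∀ (E M : Type) [Field E] [NumberField E] [Field M] [NumberField M] [Algebra E M]
      [IsGalois E M],
      -- the wild inertia groups have order at most the residue characteristic
      (∀ 𝔓 : Ideal (𝓞 M), 𝔓.IsMaximal → ¬ ResCharPowDvd E 𝔓 2) →
      -- the étale algebra
      ∀ (Ω : Type) [Fintype Ω] [Nonempty Ω] [MulAction (M ≃ₐ[E] M) Ω]
      -- the function fields
      (F K : Type) [Field F] [Field K] [Algebra E F] [Algebra M K] [Algebra E K]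
      [IsScalarTower E M K] [Algebra F K] [IsScalarTower E F K]
      (ρ : (M ≃ₐ[E] M) →* (K ≃ₐ[E] K)), (∀ g c, ρ g (algebraMap M K c) = algebraMap M K (g c)) →
      (∀ y, (∀ g, ρ g y = y) ↔ ∃ f : F, algebraMap F K f = y) →
      -- the conjugates and their models
      ∀ (m : ℕ) (z : Ω → Fin (m + 1) → K), IsProduct M z → (∀ g ω j, ρ g (z ω j) = z (g • ω) j) →
      IsAdmissible E M z →
      -- every integral scheme of finite type over the integers with the function field `F`
      ∀ (Y : Scheme.{0}) (_ : IsIntegral Y) (s : Y ⟶ Spec (CommRingCat.of ℤ)),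
      LocallyOfFiniteType s → QuasiCompact s → Nonempty (Y.functionField ≃+* F) →
      ∃ (X' : Scheme.{0}) (_ : IsIntegral X') (g : X' ⟶ Spec (CommRingCat.of ℤ)),
        IsProper g ∧
        (∀ x : X',
          (((Module.finrank (IsLocalRing.ResidueField (X'.presheaf.stalk x))
              (IsLocalRing.CotangentSpace (X'.presheaf.stalk x)) : ℕ∞)) : WithBot ℕ∞)
            = ringKrullDim (X'.presheaf.stalk x)) ∧
        Nonempty (X'.functionField ≃+* Y.functionField) := by
  intro E M _ _ _ _ _ _ hin Ω _ _ _ F K _ _ _ _ _ _ _ _ ρ hρ hfix m z ⟨hz0, hgen, hld⟩ heqv had Y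
    _ s _ _ ⟨i⟩
  have hcard : ∀ 𝔓 : Ideal (𝓞 M), Nat.card (Pool.Agent.Y223.G.inert E 𝔓) =
      Nat.card (inertiaGroup E 𝔓) := by
    intro 𝔓
    have h1 : ((Pool.Agent.Y223.G.inert E 𝔓 : Subgroup (M ≃ₐ[E] M)) : Set (M ≃ₐ[E] M)) =
        inertiaGroup E 𝔓 := by
      ext g
      constructor
      · intro hg o
        exact ⟨_, hg o, rfl⟩
      · intro hg o
        obtain ⟨e, he, h⟩ := hg o
        have h2 : e = Pool.Agent.Y223.G.TT E M g o - o := by
          apply NumberField.RingOfIntegers.coe_injective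
          exact h
        rw [← h2]
        exact he
    exact congrArg (fun S : Set (M ≃ₐ[E] M) => Nat.card S) h1
  have hgen' : IntermediateField.adjoin M {y : K | ∃ ω j, y = z ω j / z ω 0} = ⊤ := by
    rw [← hgen]
    unfold productField
    congr 1
    ext y
    constructor
    · rintro ⟨ω, j, h⟩
      exact ⟨ω, Set.mem_univ _, j, h⟩
    · rintro ⟨ω, -, j, h⟩
      exact ⟨ω, j, h⟩
  have hld' : ∀ (S : Finset Ω) (ω : Ω), ω ∉ S →
      (IntermediateField.adjoin M {y : K | ∃ ω' ∈ S, ∃ j, y = z ω' j / z ω' 0}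
        ).toSubalgebra.LinearDisjoint
          (IntermediateField.adjoin M {y : K | ∃ j, y = z ω j / z ω 0}).toSubalgebra := by
    intro S ω hω
    have h1 := hld (S : Set Ω) ω (by exact_mod_cast hω)
    unfold productField at h1
    have h2 : {y : K | ∃ ω' ∈ ({ω} : Set Ω), ∃ j, y = z ω' j / z ω' 0} =
        {y : K | ∃ j, y = z ω j / z ω 0} := by
      ext y
      constructor
      · rintro ⟨ω', hω', j, h⟩
        rw [Set.mem_singleton_iff] at hω'
        subst hω'
        exact ⟨j, h⟩
      · rintro ⟨j, h⟩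
        exact ⟨ω, rfl, j, h⟩
    rw [h2] at h1
    exact h1
  have hrg : ∀ J : Ω → Fin (m + 1), IsRegularRing (Algebra.adjoin (𝓞 M)
      {y : K | ∃ (ω : Ω) (i : Fin (m + 1)), y = z ω i / z ω (J ω)}) := by
    rcases had with h | h
    · exact Pool.Agent.Y223.G.rg_of_smooth Pool.Agent.Y223.G.all_SMRG Pool.Agent.Y223.G.all_LDG z hz0
        hld' (fun ω j q hq => @h ω j q hq)
    · exact h.2
  have hsm : ∀ 𝔓 : Ideal (𝓞 M), 𝔓.IsMaximal → ∀ p : ℕ, p.Prime → (p : 𝓞 M) ∈ 𝔓 →
      p ∣ Nat.card (Pool.Agent.Y223.G.inert E 𝔓) →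
      ∀ ω j (q : Ideal (Pool.Agent.Y223.G.AZ (𝓞 M) (z ω) j)) [q.IsPrime],
      q.comap (algebraMap (𝓞 M) (Pool.Agent.Y223.G.AZ (𝓞 M) (z ω) j)) = 𝔓 →
      Algebra.IsSmoothAt (𝓞 M) q := by
    intro 𝔓 h𝔓 p hp hp𝔓 hdvd ω j q hqp hq
    rcases had with h | h
    · exact @h ω j q hqp
    · exact @h.1 𝔓 h𝔓 ⟨p, hp, hp𝔓, by rwa [pow_one, ← hcard]⟩ ω j q hqp hq
  exact Pool.Agent.Y223.G.weile_model_F Pool.Agent.Y223.G.all_TAMC
    Pool.Agent.Y223.G.all_WEILE ρ hρ hfix z hz0 heqv
    hgen' hld' (fun 𝔓 h𝔓 p hp hp𝔓 hd => hin 𝔓 h𝔓 ⟨p, hp, hp𝔓, by rwa [← hcard]⟩) hsm hrg i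

end Pool.Agent.Results.MP_4d1008_ag.EtaleWeilRestrictions
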