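import Pool.Agent.H176.DT.G4
import Pool.Agent.H176.DT.H8

/-!
MP_4d1008_ag: resolution of singularities of integral schemes of finite type over `ℤ`, of arbitrary
dimension, along the valuations which are reached by towers without defect.

Let `X` be an integral scheme of finite type over `ℤ`, let `V` be a valuation ring of the function
field `K` of `X` which is centred on `X`, of arbitrary rank and (mixed) characteristic, and let
`Spec A` be an affine neighbourhood of the centre. Let `L` be a subfield of `K` such that `V ∩ L` is
log uniformizable on an affine scheme `Spec R` of finite type over `ℤ` with function field `L` (for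
example, `L = ℚ` and `R = ℤ`, or `R` any finitely generated ring of dimension at most `3`, by
Cossart and Piltant). Suppose that `K` is reached from `L` by finitely many steps `M ⊂ M'` of the
following kinds: (1) `M' = M(t)` with `t` transcendental, such that the value of every polynomial in
`t` is determined by a defectless key polynomial; (2) `M'` is a finite extension of `M` without
defect (the degree of the extension of the henselizations is `e f`). Then for every closed subset
`D` and every blowing-up `X₀` of `Spec A` there is a blowing-up `X'` of `Spec A` which factors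
through `X₀`, is regular at the centre of `V`, and such that the preimage of `D` and of the centre
of the blowing-up is a divisor with simple normal crossings there.
-/

set_option autoImplicit false

universe u

namespace Pool.Agent.Results.MP_4d1008_ag.KeyPolynomialTowers

open Pool.Agent.W418.LU2

/-- The local ring of `Spec B` at the centre of the valuation ring `V`: the fractions of elements
of `B` whose denominators are units of `V`. -/
def centreRing {F : Type u} [Field F] (V : ValuationSubring F) (B : Subring F) : Subring F where
  carrier := {x | ∃ a ∈ B, ∃ b ∈ B, b ≠ 0 ∧ b⁻¹ ∈ V ∧ x = a * b⁻¹}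
  mul_mem' := (lo V.toSubring B).mul_mem'
  one_mem' := (lo V.toSubring B).one_mem'
  add_mem' := (lo V.toSubring B).add_mem'
  zero_mem' := (lo V.toSubring B).zero_mem'
  neg_mem' := (lo V.toSubring B).neg_mem'

/-- The chart `A[I / f]` of the blowing-up of `Spec A` in the ideal `I`. -/
def blowUpChart {F : Type u} [Field F] (A : Subring F) (I : Ideal A) (f : A) : Subring F :=
  Subring.closure ((A : Set F) ∪ {z | ∃ a ∈ I, z = (a : F) / (f : F)})

/-- `P` is a regular local ring and the zero set of `J` is a divisor with strict normal
crossings: the radical of `J` is generated by the product of some of the elements of a regular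
system of parameters. -/
def RegularPair (P : Type u) [CommRing P] (J : Ideal P) : Prop :=
  ∃ (_ : IsRegularLocalRing P) (n : ℕ) (x : Fin n → P) (s : Finset (Fin n)),
    Ideal.span (Set.range x) = IsLocalRing.maximalIdeal P ∧ ringKrullDim P = n ∧
      J.radical = Ideal.span {∏ i ∈ s, x i}

/-- The blowing-up of `X = Spec A` in `V(I)` is a log desingularization of `(X, V(D))` along the
valuation ring `V`. Here `f ∈ I` generates `I V`, the centre of the lift of the valuation lies in
the chart `Spec A[I / f]`, and the ideal `D I` defines the preimage of `V(D) ∪ V(I)`. -/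
def IsLogDesingularization {F : Type u} [Field F] (V : ValuationSubring F) (A : Subring F)
    (D I : Ideal A) : Prop :=
  ∃ f ∈ I, f ≠ 0 ∧ (∀ a ∈ I, (a : F) / (f : F) ∈ V) ∧
    RegularPair (centreRing V (blowUpChart A I f))
      (Ideal.span {z | ∃ a ∈ D * I, (z : F) = (a : F)})

/-- The valuation ring `V` is log uniformizable on `Spec A`. (The blowings-up in the ideals
`I₀ * I₁` are cofinal: the blowing-up in `I₀ * I₁` factors through the blowing-up in `I₀`.) -/
def IsLogUniformizable {F : Type u} [Field F] (V : ValuationSubring F) (A : Subring F) : Prop :=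
  ∀ D I₀ : Ideal A, D ≠ ⊥ → I₀ ≠ ⊥ →
    ∃ I₁ : Ideal A, I₁ ≠ ⊥ ∧ IsLogDesingularization V A D (I₀ * I₁)

section key

open Polynomial

variable {K : Type u} [Field K] (V : ValuationSubring K) {L : Subfield K} (θ : K)

/-- The monic polynomial `ϕ` over `L` of positive degree is a key polynomial for the valuation
`f ↦ |f(θ)|` of polynomials: if `f` and `g` are nonzero polynomials of smaller degree and
`f g = q ϕ + r` with `deg r < deg ϕ`, then `|q(θ) ϕ(θ)| < |f(θ) g(θ)|`. (So `|r(θ)| = |f(θ) g(θ)|`,
and the values of the polynomials of smaller degree define a valuation of `L[X] / (ϕ)`.) -/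
def IsKey (ϕ : L[X]) : Prop :=
  ϕ.Monic ∧ 0 < ϕ.natDegree ∧ ∀ f g : L[X], f.degree < ϕ.degree → g.degree < ϕ.degree →
    f ≠ 0 → g ≠ 0 → V.valuation (aeval θ (f * g /ₘ ϕ * ϕ)) < V.valuation (aeval θ (f * g))

/-- The polynomials of degree less than the degree of `ϕ` have an orthogonal basis over `L` with
respect to the valuation `f ↦ |f(θ)|`. (For a key polynomial `ϕ` this means that the valued field
`L[X] / (ϕ)` is an extension of `L` of degree `e f`. It holds if there are no limit key
polynomials of degree at most `deg ϕ`.) -/
def IsDefectless (ϕ : L[X]) : Prop :=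
  ∃ (n : ℕ) (β : Fin n → L[X]), (∀ i, (β i).degree < ϕ.degree ∧ β i ≠ 0) ∧
    (∀ f : L[X], f.degree < ϕ.degree → ∃ c : Fin n → L, f = ∑ i, C (c i) * β i) ∧
    ∀ (c : Fin n → L) (i : Fin n), V.valuation (aeval θ (C (c i) * β i)) ≤
      V.valuation (aeval θ (∑ j, C (c j) * β j))

/-- The value of `f(θ)` is determined by `ϕ`: in the `ϕ`-adic expansion `f = ∑ f_k ϕ ^ k` with
`deg f_k < deg ϕ` the value of no term at `θ` is greater than the value of `f(θ)`. -/
def IsDetermined (ϕ f : L[X]) : Prop :=
  ∃ (N : ℕ) (d : ℕ → L[X]), (∀ k, (d k).degree < ϕ.degree) ∧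
    f = ∑ k ∈ Finset.range N, d k * ϕ ^ k ∧
    ∀ k < N, V.valuation (aeval θ (d k * ϕ ^ k)) ≤ V.valuation (aeval θ f)

end key

open Polynomial in
/-- The extension `L ⊆ L'` of subfields of `K` is finite and has no defect with respect to the
valuation ring `V` of `K`. That is, for some valuation ring `W` over `V` of some extension field
`M` of `K`, some root `ζ ∈ M` of a monic polynomial `f` over `V ∩ L` with `|f'(ζ)| = 1`, and some
nonzero elements `β i` of `L'`, the field `L'(ζ)` is the sum of the lines `L(ζ) β i`, and the `β
i` are orthogonal over `L(ζ) = L[ζ]`. (The extension `L(ζ) / L` is unramified. If `L^h ⊆ L'^h ⊆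
K^h` are the henselizations for `V` and `[L'^h : L^h] = e f`, then this holds with `M = K^h`,
`L(ζ)` a large finite subextension of `L^h / L`, and with products of `e` elements of `L'` whose
values represent the cosets of the value group and `f` elements of `L'` whose residues form a
basis for the `β i`. For `M = K` and `L(ζ) = L` it is the condition `[L' : L] = e f`.) -/
def IsFiniteWithoutDefect {K : Type u} [Field K] (V : ValuationSubring K) (L L' : Subfield K) :
    Prop :=
  L ≤ L' ∧ ∃ (M : Type u) (_ : Field M) (_ : Algebra K M) (W : ValuationSubring M) (ζ : M)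
    (f : L[X]) (n : ℕ) (β : Fin n → K), W.comap (algebraMap K M) = V ∧ f.Monic ∧
    (∀ i, (f.coeff i : K) ∈ V) ∧ eval₂ ((algebraMap K M).comp L.subtype) ζ f = 0 ∧
    W.valuation (eval₂ ((algebraMap K M).comp L.subtype) ζ (derivative f)) = 1 ∧
    (∀ i, β i ∈ L' ∧ β i ≠ 0) ∧
    (∀ z ∈ L', ∃ c : Fin n → L[X], algebraMap K M z =
      ∑ i, eval₂ ((algebraMap K M).comp L.subtype) ζ (c i) * algebraMap K M (β i)) ∧
    ∀ (c : Fin n → L[X]) (i : Fin n),
      W.valuation (eval₂ ((algebraMap K M).comp L.subtype) ζ (c i) * algebraMap K M (β i)) ≤
        W.valuation (∑ j, eval₂ ((algebraMap K M).comp L.subtype) ζ (c j) * algebraMap K M (β j))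

open Polynomial in
/-- The subfields `L` of `K` which are reached from the field `E` by a tower of steps without
defect with respect to the valuation ring `V` of `K`. -/
inductive Tower (E : Type u) {K : Type u} [Field E] [Field K] [Algebra E K]
    (V : ValuationSubring K) : Subfield K → Prop
  /-- The tower starts with (the image of) `E`. -/
  | base : Tower E V (algebraMap E K).fieldRange
  /-- The step from `L` to `L(t)`, where `t` is transcendental and the value of every polynomial in
  `t` is determined by a defectless key polynomial. (This holds if the valuation of `L(t)` has no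
  limit key polynomials; for example, if `L` is algebraically closed, if `t` is a limit of a
  pseudo-convergent sequence of transcendental type, or if the value or the residue of a
  defectless key polynomial at `t` is transcendental over `L`.) -/
  | transcendental (L : Subfield K) (t : K) : Tower E V L → Transcendental L t →
    (∀ f : L[X], ∃ ϕ : L[X], IsKey V t ϕ ∧ IsDefectless V t ϕ ∧ IsDetermined V t ϕ f) →
    Tower E V (L ⊔ Subfield.closure {t})
  /-- The step from `L` to a finite extension `L'` without defect. -/
  | finite (L L' : Subfield K) : Tower E V L → IsFiniteWithoutDefect V L L' → Tower E V L'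

/-- Let `K` be a field with a valuation ring `V`, of arbitrary rank and (mixed) characteristic,
and let `L` be a subfield of `K`. Let `R ⊆ V` be a finitely generated ring with fraction field `L`,
such that `R` is a Dedekind ring (for example, `R = ℤ`) or a field, or such that `V ∩ L` is log
uniformizable on `Spec R`. Suppose that `K` is reached from `L` by a tower as above. Let `A ⊆ V` be a
finitely generated ring with fraction field `K`, that is, an affine open subset `Spec A` of an
integral scheme of finite type over `ℤ` with function field `K` which contains the centre of `V`.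
Then `V` is log uniformizable on `Spec A`: for every closed subset `V(D)` of `Spec A` and for every
blowing-up `X₀` of `Spec A` there is a blowing-up of `Spec A` which factors through `X₀` and is a
log resolution of singularities of `(Spec A, V(D))` along `V`. -/
theorem result {L K : Type u} [Field L] [Field K] [Algebra L K] (V : ValuationSubring K)
    (U : Set L) (hU : U.Finite) (R : Subring L) (hRU : R = Subring.closure U)
    (hfr : ∀ z : L, ∃ a ∈ R, ∃ b ∈ R, b ≠ 0 ∧ z = a * b⁻¹)
    (hRV : ∀ a ∈ R, algebraMap L K a ∈ V)
    (hR : IsDedekindDomain R ∨ IsLogUniformizable (V.comap (algebraMap L K)) R)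
    (hK : Tower L V ⊤)
    (G : Set K) (hG : G.Finite) (A : Subring K) (hAG : A = Subring.closure G)
    (hAV : ∀ a ∈ A, a ∈ V) (hAK : ∀ z : K, ∃ a ∈ A, ∃ b ∈ A, b ≠ 0 ∧ z = a * b⁻¹) :
    IsLogUniformizable V A := by
  have hRN : IsNoetherianRing R := by
    rw [hRU]
    exact Pool.Agent.H176.DT.noe_fg U hU
  have hAN : IsNoetherianRing A := by
    rw [hAG]
    exact Pool.Agent.H176.DT.noe_fg G hG
  have hbL : R = Subring.closure (((⊥ : Subring L) : Set L) ∪ U) := by
    rw [hRU, Subring.closure_union, Subring.closure_eq, bot_sup_eq]
  have hbK : A = Subring.closure ((((⊥ : Subring L).map (algebraMap L K) : Subring K) : Set K) ∪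
      G) := by
    rw [hAG, Subring.map_bot, Subring.closure_union, Subring.closure_eq, bot_sup_eq]
  have hRW : R ≤ (V.comap (algebraMap L K)).toSubring := fun a ha => hRV a ha
  have hLU : LogUnif (V.comap (algebraMap L K)) R := by
    rcases hR with hR | hR
    · exact logUnif_of_dedekind _ R hRW hfr
    · exact hR
  have kp : ∀ {M : Subfield K} {θ : K} {ϕ : Polynomial M}, IsKey V θ ϕ → IsDefectless V θ ϕ →
      ∃ (n : ℕ) (β : Fin n → Polynomial M), Pool.Agent.H176.DT.KP V θ ϕ β := by
    rintro M θ ϕ ⟨h1, h2, h3⟩ ⟨n, β, h4, h5, h6⟩
    exact ⟨n, β, h1, h2, fun i => (h4 i).1, fun i => (h4 i).2, h5, h6, h3⟩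
  have key : ∀ M : Subfield K, Tower L V M →
      Pool.Agent.H176.DT.Inv V (R.map (algebraMap L K)) M.subtype := by
    intro M hM
    induction hM with
    | base => exact Pool.Agent.H176.DT.sub_base V R ⟨hRW, hfr⟩ hLU
    | transcendental L t _ ht hdom ih =>
      refine Pool.Agent.H176.DT.sub_trans V _ t ht (fun f => ?_) ih
      obtain ⟨ϕ, h1, h2, N, d, h3, h4, h5⟩ := hdom f
      obtain ⟨n, β, h6⟩ := kp h1 h2
      exact ⟨ϕ, n, β, h6, N, d, ⟨h3, h4⟩, h5⟩
    | finite L L' _ hnd ih => exact Pool.Agent.H176.DT.sub_nd V _ hnd.1 hnd.2 ih
  have h1 := Pool.Agent.H176.DT.inv_SU2 V ⊥ R U hU hbL hRV (key ⊤ hK) A G hG hbK ⟨hAV, hAK⟩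
  exact Pool.Agent.H176.DT.p_fin V A hAV h1

end Pool.Agent.Results.MP_4d1008_ag.KeyPolynomialTowers
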