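import Pool.Agent.H176.Mix.MT
import Pool.Agent.W418.Z.Reg

/-!
MP_4d1008_ag: regular proper models over `ℤ`, in all dimensions, of clean covers of mixed type of a smooth projective
variety `X` with a divisor with simple normal crossings over a finite field of characteristic `p`:
the function field of the cover is generated by roots of Artin-Schreier equations (combinations of
functions `f t`, or towers `z i ^ p - z i = f i + g i`, where `g i` is any element of
`K (z 1, ..., z (i - 1))` with smaller poles than `f i`, in general neither abelian nor Galois) and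
by `p`-th roots (of linear combinations of functions `F u`, or of products of powers of the `F u`),
and at every point of `X` the logarithmic differential forms of those `f t` which have a pole at the
point, together with those of all `F u`, are linearly independent.

The proof: one constructs smooth models with a divisor with simple normal crossings of the field
`K (z 1, ..., z r)` which lie over `X`, such that a logarithmic tangent vector of `X` can be lifted to
the model if it is killed by the forms of those `f t` which have a pole at the point. So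
the `F u` keep a joint normal form on this model, and the construction of models of purely
inseparable covers can be applied to it. This contains the results of my earlier files CleanTowers
(no `p`-th roots), MixedCleanCovers (no towers, sums) and MixedKummerCovers (no towers, products).

helper176; built on the library of the starting files (helpers 558, 214, 188, 32, 356, 906, 29, 33,
369, 405, 368, 230, 191, 410, 435, 376, 382, 348, 135, 991, 366, 74, 305, 417, 440, 409, 174, 290,
392, 352, 565, 335, 924, 337, 347, 479, 959, 727, 202, 22, 349, 715, 971, 90, 153 and others).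
-/

set_option autoImplicit false

open AlgebraicGeometry CategoryTheory Pool.Agent.W558

namespace Pool.Agent.Results.MP_4d1008_ag.MixedCleanTowers

/-- The coordinate ring `k[H 0 / H j, ..., H N / H j]` of the chart `H j ≠ 0` of the projective
variety over `k` with the homogeneous coordinates `H 0, ..., H N` in a field `K`. -/
def chart (k : Type) {K : Type} [Field k] [Field K] [Algebra k K] {N : ℕ}
    (H : Fin (N + 1) → K) (j : Fin (N + 1)) : Subalgebra k K :=
  Algebra.adjoin k (Set.range fun l => H l / H j)

/-- A tangent vector at the point `P : A → κ` of `Spec A`. -/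
structure TangentVector {k A κ : Type} [Field k] [CommRing A] [Algebra k A] [Field κ]
    [Algebra k κ] (P : A →ₐ[k] κ) where
  /-- the derivation -/
  D : A →ₗ[k] κ
  leibniz : ∀ a b, D (a * b) = P a * D b + P b * D a

/-- A logarithmic tangent vector at the point `P : A → κ` of `Spec A` with the divisor
`x 1 * ... * x d = 0`: a tangent vector together with the values `e i` of `dx i / x i`. -/
structure LogTangentVector {k A κ : Type} [Field k] [CommRing A] [Algebra k A] [Field κ]
    [Algebra k κ] (P : A →ₐ[k] κ) {d : ℕ} (x : Fin d → A) extends TangentVector P where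
  /-- the values of `dx i / x i` -/
  e : Fin d → κ
  D_x : ∀ i, D (x i) = P (x i) * e i

/-- The value of the logarithmic differential form
`d (x ^ n * h) / x ^ n = dh + h * ∑ i, n i * dx i / x i` on the logarithmic tangent vector `v`. -/
def LogTangentVector.form {k A κ : Type} [Field k] [CommRing A] [Algebra k A] [Field κ]
    [Algebra k κ] {P : A →ₐ[k] κ} {d : ℕ} {x : Fin d → A} (v : LogTangentVector P x)
    (n : Fin d → ℤ) (h : A) : κ :=
  v.D h + P h * ∑ i, (n i : κ) * v.e i

/-- A smooth projective variety over `k` with the function field `K` and a divisor with simple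
normal crossings on it, with the components `1, ..., d`. -/
structure SmoothPair (k K : Type) [Field k] [Field K] [Algebra k K] (N d : ℕ) where
  /-- the homogeneous coordinates -/
  H : Fin (N + 1) → K
  H_ne : ∀ j, H j ≠ 0
  smooth : ∀ j, Algebra.Smooth k (chart k H j)
  isFractionRing : ∀ j, IsFractionRing (chart k H j) K
  /-- the local equations of the components of the divisor on the charts -/
  x : ∀ j, Fin d → chart k H j
  x_ne : ∀ j i, x j i ≠ 0
  glue : ∀ j j' i, ∃ m : ℕ, (H j' / H j) ^ m * ((x j' i : K) / x j i) ∈ chart k H j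
  snc : ∀ j (κ : Type) [Field κ] [Algebra k κ] (P : chart k H j →ₐ[k] κ) (i : Fin d),
    P (x j i) = 0 → ∃ D : TangentVector P, D.D (x j i) = 1 ∧
      ∀ l, l ≠ i → P (x j l) = 0 → D.D (x j l) = 0

/-- The point `P` of the chart `j` is a pole of `x ^ n`: it lies on a component `i` of the divisor
with `n i < 0`. -/
def IsPole {k K : Type} [Field k] [Field K] [Algebra k K] {N d : ℕ} (X : SmoothPair k K N d)
    (n : Fin d → ℤ) {j : Fin (N + 1)} {κ : Type} [Field κ] [Algebra k κ]
    (P : chart k X.H j →ₐ[k] κ) : Prop :=
  ∃ i, n i < 0 ∧ P (X.x j i) = 0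

/-- The Artin-Schreier functions `f t` and the functions `F u` (whose `p`-th roots are
considered) are jointly clean: on the chart `j` we have `f t = a ^ p - a + x ^ (n t) * h` with
exponents `n t i ≤ 0`, and `F u = b ^ p + x ^ (m u) * c`, where the exponents do not depend on the
chart, `a, b ∈ K`, and `h, c` are regular functions, such that, at every point `P`, the values
at `P` of the logarithmic differential forms `d (x ^ (n t) * h) / x ^ (n t)`, for those `t` such that
`P` is a pole of `x ^ (n t)`, and of the logarithmic differential forms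
`d (x ^ (m u) * c) / x ^ (m u)`, for all `u`, are linearly independent (as linear functions of the
logarithmic tangent vectors): for every `t` as above there is a logarithmic tangent vector such that
the form of `f t` does not vanish and the forms of the other `f t'` as above vanish, and for
every `u` there is a logarithmic tangent vector such that the form of `F u` does not vanish, the
forms of the other `F u'` vanish, and the forms of the `f t` as above vanish. -/
structure CleanData (p : ℕ) {k K : Type} [Field k] [Field K] [Algebra k K] {N d s q : ℕ}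
    (X : SmoothPair k K N d) (f : Fin s → K) (F : Fin q → K) where
  /-- the exponents of the `f t` -/
  n : Fin s → Fin d → ℤ
  /-- the functions `a` on the charts -/
  a : Fin (N + 1) → Fin s → K
  /-- the functions `h` on the charts -/
  h : ∀ j, Fin s → chart k X.H j
  /-- the exponents of the `F u` -/
  m : Fin q → Fin d → ℤ
  /-- the functions `b` on the charts -/
  b : Fin (N + 1) → Fin q → K
  /-- the functions `c` on the charts -/
  c : ∀ j, Fin q → chart k X.H j
  n_nonpos : ∀ t i, n t i ≤ 0
  eq_f : ∀ j t, f t = a j t ^ p - a j t + (∏ i, (X.x j i : K) ^ n t i) * h j t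
  eq_F : ∀ j u, F u = b j u ^ p + (∏ i, (X.x j i : K) ^ m u i) * c j u
  clean_f : ∀ j (κ : Type) [Field κ] [Algebra k κ] (P : chart k X.H j →ₐ[k] κ) (t : Fin s),
    IsPole X (n t) P → ∃ v : LogTangentVector P (X.x j), v.form (n t) (h j t) ≠ 0 ∧
      ∀ t', t' ≠ t → IsPole X (n t') P → v.form (n t') (h j t') = 0
  clean_F : ∀ j (κ : Type) [Field κ] [Algebra k κ] (P : chart k X.H j →ₐ[k] κ) (u : Fin q),
    ∃ v : LogTangentVector P (X.x j), v.form (m u) (c j u) ≠ 0 ∧
      (∀ u', u' ≠ u → v.form (m u') (c j u') = 0) ∧
      ∀ t, IsPole X (n t) P → v.form (n t) (h j t) = 0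

/-- On the chart `j`, the element `g` of the extension `K'` of `K` has smaller poles than `x ^ n`:
the quotient `y = g / x ^ n` is integral over the coordinate ring of the chart, and, for every
component `l` of the divisor with `n l < 0`, so is `y ^ e / x l` for some `e ≥ 1`. -/
def HasSmallerPoles {k K : Type} [Field k] [Field K] [Algebra k K] {N d : ℕ}
    (X : SmoothPair k K N d) (n : Fin d → ℤ) (j : Fin (N + 1)) {K' : Type} [Field K']
    [Algebra K K'] (g : K') : Prop :=
  IsIntegral (chart k X.H j) (g * algebraMap K K' (∏ l, (X.x j l : K) ^ (-n l))) ∧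
  ∀ l, n l < 0 → ∃ e : ℕ, 0 < e ∧ IsIntegral (chart k X.H j)
    ((g * algebraMap K K' (∏ l, (X.x j l : K) ^ (-n l))) ^ e *
      algebraMap K K' (X.x j l : K)⁻¹)

/-- The zeros and poles of the function `g` are contained in the divisor: on the charts it is the
product of a unit and of powers of the local equations. -/
def IsBoundaryFunction {k K : Type} [Field k] [Field K] [Algebra k K] {N d : ℕ}
    (X : SmoothPair k K N d) (g : K) : Prop :=
  ∃ γ : Fin d → ℤ, ∀ j, ∃ u : (chart k X.H j)ˣ,
    g = ((u : chart k X.H j) : K) * ∏ i, (X.x j i : K) ^ γ i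

/-- The elements `z 1, ..., z r` of the extension `K'` of `K` are roots of Artin-Schreier equations
of one of the following two kinds.

* Every `z i ^ p - z i` is a linear combination of the `f t` with integral coefficients, up to an
  element `b ^ p - b`, `b ∈ K`.
* (Towers) `z i ^ p - z i = f (σ i) + g i` with different functions `f (σ i)` and with elements `g i` of
  the field `K (z 1, ..., z (i - 1))` which, on every chart of `X`, have smaller poles than
  `x ^ (n (σ i))`, up to an element `b ^ p - b`, `b ∈ K (z 1, ..., z (i - 1))`. -/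
def IsSeparablePart {p : ℕ} {k K : Type} [Field k] [Field K] [Algebra k K] {N d s q : ℕ}
    {X : SmoothPair k K N d} {f : Fin s → K} {F : Fin q → K} (C : CleanData p X f F)
    {K' : Type} [Field K'] [Algebra K K'] {r : ℕ} (z : Fin r → K') : Prop :=
  (∀ i, z i ^ p - z i ∈ AddSubgroup.closure ((Set.range fun t => algebraMap K K' (f t)) ∪
    Set.range fun b : K => algebraMap K K' (b ^ p - b))) ∨
  ∃ (σ : Fin r → Fin s) (g : Fin r → K'), Function.Injective σ ∧
    (∀ i, z i ^ p - z i = algebraMap K K' (f (σ i)) + g i) ∧
    (∀ i, g i ∈ IntermediateField.adjoin K (z '' {l | l < i})) ∧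
    ∀ i j, ∃ b ∈ IntermediateField.adjoin K (z '' {l | l < i}),
      HasSmallerPoles X (C.n (σ i)) j (g i - (b ^ p - b))

/-- The elements `w 1, ..., w r'` of the extension `K'` of `K (z 1, ..., z r)` are `p`-th roots of
one of the following two kinds.

* Every `w l ^ p` is a linear combination of the `F u` with coefficients in `k`, up to an element
  `b ^ p`, `b ∈ K (z 1, ..., z r)`.
* The zeros and poles of the `F u` are contained in the divisor, and every `w l ^ p` is a product of
  powers of the `F u`, up to a factor `b ^ p`, `b ∈ K (z 1, ..., z r)`, `b ≠ 0`. -/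
def IsInseparablePart (p : ℕ) {k K : Type} [Field k] [Field K] [Algebra k K] {N d q : ℕ}
    (X : SmoothPair k K N d) (F : Fin q → K) {K' : Type} [Field K'] [Algebra K K'] {r r' : ℕ}
    (z : Fin r → K') (w : Fin r' → K') : Prop :=
  (∀ l, ∃ y ∈ Submodule.span k (Set.range F), ∃ b ∈ IntermediateField.adjoin K (Set.range z),
    w l ^ p = algebraMap K K' y + b ^ p) ∨
  (∀ u, IsBoundaryFunction X (F u)) ∧
    ∀ l, ∃ e : Fin q → ℤ, ∃ b ∈ IntermediateField.adjoin K (Set.range z), b ≠ 0 ∧
      w l ^ p = algebraMap K K' (∏ u, F u ^ e u) * b ^ p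

/-- Let `k` be a finite field of characteristic `p`, `X` a smooth projective variety over `k` with
the function field `K` and a divisor with simple normal crossings, and let `f 1, ..., f s` and
`F 1, ..., F q` be elements of `K` which are jointly clean. Let `K'` be an extension of `K`
generated by elements `z 1, ..., z r` and `w 1, ..., w r'` such that

* the `z i` are roots of Artin-Schreier equations: either every `z i ^ p - z i` is an integral
  linear combination of the `f t`, up to elements `b ^ p - b`, `b ∈ K`; or
  `z i ^ p - z i = f (σ i) + g i` with different `f (σ i)`, where `g i` is any element of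
  `K (z 1, ..., z (i - 1))` with smaller poles than `f (σ i)` (so the extension is in general neither
  abelian nor Galois);
* the `w l` are `p`-th roots: either every `w l ^ p` is a linear combination of the `F u` with
  coefficients in `k`, up to `p`-th powers of elements of `K (z 1, ..., z r)`; or the zeros and
  poles of the `F u` are contained in the divisor and every `w l ^ p` is a product of powers of the
  `F u`, up to factors which are `p`-th powers of elements of `K (z 1, ..., z r)`.

Then every integral scheme `Y` of finite type over `ℤ` whose function field is isomorphic to `K'`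
has a regular model proper over `ℤ`. -/
theorem result (p : ℕ) [Fact p.Prime] (k K K' : Type) [Field k] [Finite k] [CharP k p]
    [Field K] [Algebra k K] [Field K'] [Algebra k K'] [Algebra K K'] [IsScalarTower k K K']
    (N d s q r r' : ℕ) (X : SmoothPair k K N d) (f : Fin s → K) (F : Fin q → K)
    (C : CleanData p X f F) (z : Fin r → K') (hz : IsSeparablePart C z)
    (w : Fin r' → K') (hw : IsInseparablePart p X F z w)
    (hgen : IntermediateField.adjoin K (Set.range z ∪ Set.range w) = ⊤)
    (Y : Scheme.{0}) (_ : IsIntegral Y) (g : Y ⟶ Spec (CommRingCat.of ℤ))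
    (_ : LocallyOfFiniteType g) (_ : QuasiCompact g)
    (_ : Nonempty (Y.functionField ≃+* K')) :
    ∃ (X' : Scheme.{0}) (_ : IsIntegral X') (g' : X' ⟶ Spec (CommRingCat.of ℤ)),
      IsProper g' ∧
      (∀ x : X',
        (((Module.finrank (IsLocalRing.ResidueField (X'.presheaf.stalk x))
            (IsLocalRing.CotangentSpace (X'.presheaf.stalk x)) : ℕ∞)) : WithBot ℕ∞)
          = ringKrullDim (X'.presheaf.stalk x)) ∧
      Nonempty (X'.functionField ≃+* Y.functionField) := by
  classical
  let M : LM (⊥ : Subalgebra k K) ⊤ (Fin (N + 1)) (Fin d) :=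
    Pool.Agent.TH214.pairLM X.H (fun j i => (X.x j i : K)) X.H_ne X.smooth
      (fun j i => (X.x j i).2) (fun j i h0 => X.x_ne j i (Subtype.ext h0)) X.glue (by
        intro j κ _ _ P i hi h0
        obtain ⟨D, h1, h2⟩ := X.snc j κ P i h0
        exact ⟨⟨D.D, D.leibniz⟩, h1, fun l hl hne hl0 => h2 l hne hl0⟩)
  have hN : Pool.Agent.H176.Mix.NBW p M f C.n C.a (fun j t => (C.h j t : K)) := by
    refine ⟨C.n_nonpos, fun j t => (C.h j t).2, C.eq_f, ?_⟩
    intro j κ _ _ P t ht
    obtain ⟨v, hv1, hv2⟩ := C.clean_f j κ P t ht
    exact ⟨⟨⟨v.D, v.leibniz⟩, v.e, fun i hi => v.D_x i⟩, hv1, hv2⟩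
  have hfn : ∀ g : K, IsBoundaryFunction X g → ∃ γ : Fin d → ℤ, ∀ j : Fin (N + 1), ∃ w,
      w ≠ 0 ∧ w ∈ M.A j ∧ w⁻¹ ∈ M.A j ∧ g = w * ∏ i, M.x j i ^ γ i := by
    rintro g ⟨γ, hγ⟩
    refine ⟨γ, fun j => ?_⟩
    obtain ⟨u, hu⟩ := hγ j
    refine ⟨((u : chart k X.H j) : K), ?_, ((u : chart k X.H j)).2, ?_, hu⟩
    · intro h0
      exact u.ne_zero (Subtype.ext h0)
    · have h1 : ((u : chart k X.H j) : K)⁻¹ = ((u⁻¹ : (chart k X.H j)ˣ) : K) := by
        refine inv_eq_of_mul_eq_one_right ?_
        have h2 := congrArg (fun z : chart k X.H j => (z : K)) u.mul_inv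
        exact h2
      rw [h1]
      exact ((u⁻¹ : (chart k X.H j)ˣ) : chart k X.H j).2
  have hR : Frc M := by
    intro j z
    have := X.isFractionRing j
    obtain ⟨a', b', hb', rfl⟩ := IsFractionRing.div_surjective (A := chart k X.H j) z
    exact ⟨a', a'.2, b', b'.2, fun h0 => nonZeroDivisors.ne_zero hb' (Subtype.ext h0),
      div_eq_mul_inv _ _⟩
  have hG : Fn M (fun b : PEmpty => (b.elim : K)) (fun b => b.elim) := fun b => b.elim
  have hln : ∀ j (κ : Type) [Field κ] [Algebra k κ] (ψ : M.A j →ₐ[k] κ) (u : Fin q),
      ∃ v : Pool.Agent.W558.LT ψ (M.x j), Pool.Agent.W558.om v (C.m u) (C.c j u).2 ≠ 0 ∧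
        (∀ l, l ≠ u → Pool.Agent.W558.om v (C.m l) (C.c j l).2 = 0) ∧
        ∀ t, Pool.Agent.H176.Mix.Pole M j ψ (C.n t) →
          Pool.Agent.W558.om v (C.n t) (hN.hA j t) = 0 := by
    intro j κ _ _ P u
    obtain ⟨v, h1, h2, h3⟩ := C.clean_F j κ P u
    exact ⟨⟨⟨v.D, v.leibniz⟩, v.e, fun i hi => v.D_x i⟩, h1, h2, h3⟩
  obtain ⟨T, I, hT, hI, M', Γ', hF', hR', hD'⟩ : ∃ (T I : Type) (_ : Finite T) (_ : Fintype I)
      (M' : LM (⊥ : Subalgebra k K') ⊤ T I) (Γ' : PEmpty → I → ℤ),
      Fn M' (fun b : PEmpty => algebraMap K K' (b.elim : K)) Γ' ∧ Frc M' ∧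
        Pool.Agent.TH214.Dm M.A (algebraMap K K') M' := by
    rcases hw with hw | ⟨hFb, hw⟩
    · refine Pool.Agent.H176.Mix.model_mt p M hN (F := F) (m := C.m) (b := C.b)
        (c := fun j u => (C.c j u : K)) (fun j u => (C.c j u).2) C.eq_F hln hG hR z hz w
        (Or.inl fun l => ?_) hgen
      obtain ⟨y, hy, b, hb, hwb⟩ := hw l
      obtain ⟨lam, hlam⟩ := (Submodule.mem_span_range_iff_exists_fun k).1 hy
      refine ⟨lam, b, hb, ?_⟩
      rw [hwb, ← hlam]
      simp only [Algebra.smul_def]
    · choose δ hδ using fun u => hfn _ (hFb u)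
      have hG2 : Fn M (Sum.elim (fun b : PEmpty => (b.elim : K)) F) (Sum.elim (fun b : PEmpty => (b.elim : Fin d → ℤ)) δ) := by
        rintro (b | u)
        · exact b.elim
        · exact hδ u
      have hF0 : ∀ u, F u ≠ 0 := by
        intro u
        obtain ⟨w', hw0, -, -, h1⟩ := hδ u 0
        rw [h1]
        exact mul_ne_zero hw0 (Finset.prod_ne_zero_iff.2 fun i _ => zpow_ne_zero _ (M.x0 0 i))
      obtain ⟨T, I, hT, hI, M', Γ', hF', hR', hD'⟩ :=
        Pool.Agent.H176.Mix.model_mt p M hN (F := F) (m := C.m) (b := C.b)
        (c := fun j u => (C.c j u : K)) (fun j u => (C.c j u).2) C.eq_F hln hG2 hR z hz w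
        (Or.inr ⟨fun u => ⟨Sum.inr u, rfl⟩, hF0, hw⟩) hgen
      exact ⟨T, I, hT, hI, M', fun b => Γ' (Sum.inl b), fun b => b.elim, hR', hD'⟩
  obtain ⟨X', hX', g', h1, h2, ⟨h3⟩⟩ := Pool.Agent.W418.Z.regular_of_LM M' (fun t x => by
    obtain ⟨a, ha, b, hb, hb0, h⟩ := hR' t x
    exact ⟨a, ha, b, hb, hb0, by rw [h, div_eq_mul_inv]⟩)
  obtain ⟨ε⟩ := ‹Nonempty (Y.functionField ≃+* K')›
  exact ⟨X', hX', g', h1, h2, ⟨h3.trans ε.symm⟩⟩

end Pool.Agent.Results.MP_4d1008_ag.MixedCleanTowers
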